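import Pool.Agent.W388.TW.D0

/-!
# An upper bound for `∑ Λ(n) |c(n)|² n^(-1-σ)` from the mean value
-/

set_option autoImplicit false

open Filter Topology

namespace Pool.Agent.Y772.NZ

/-- finite Abel inequality -/
lemma abel_fin (d w : ℕ → ℝ) (C : ℝ) (hd : ∀ N : ℕ, 1 ≤ N → ∑ n ∈ Finset.Icc 1 N, d n ≤ C)
    (hw : ∀ n : ℕ, 1 ≤ n → w (n + 1) ≤ w n) (N : ℕ) (hN : 1 ≤ N) :
    ∑ n ∈ Finset.Icc 1 N, d n * w n ≤ C * (w 1 - w N) + (∑ n ∈ Finset.Icc 1 N, d n) * w N := by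
  induction N, hN using Nat.le_induction with
  | base => simp
  | succ N hN ih =>
    rw [Finset.sum_Icc_succ_top (by omega), Finset.sum_Icc_succ_top (by omega)]
    have h1 := hd N hN
    have h2 := hw N hN
    nlinarith

lemma sel_partial (c : ℕ → ℂ) (h : W388.SelE c) : ∃ C : ℝ, 0 ≤ C ∧ ∀ N : ℕ, 1 ≤ N →
    ∑ n ∈ Finset.Icc 1 N, (ArithmeticFunction.vonMangoldt n * ‖c n‖ ^ 2 / n - 2 / n) ≤ C := by
  unfold W388.SelE at h
  have h1 := h.eventually_lt_const (by norm_num : (1 : ℝ) < 2)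
  obtain ⟨x0, hx0⟩ := (h1.and (eventually_ge_atTop (2 : ℝ))).exists_forall_of_atTop
  set N0 : ℕ := ⌈x0⌉₊ with hN0
  have hnn : ∀ n : ℕ, 0 ≤ ArithmeticFunction.vonMangoldt n * ‖c n‖ ^ 2 / n := fun n =>
    div_nonneg (mul_nonneg ArithmeticFunction.vonMangoldt_nonneg (by positivity)) (by positivity)
  refine ⟨∑ n ∈ Finset.Icc 1 N0, ArithmeticFunction.vonMangoldt n * ‖c n‖ ^ 2 / n,
    Finset.sum_nonneg fun n _ => hnn n, fun N hN => ?_⟩
  rw [Finset.sum_sub_distrib]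
  have hB : 0 ≤ ∑ n ∈ Finset.Icc 1 N0, ArithmeticFunction.vonMangoldt n * ‖c n‖ ^ 2 / n :=
    Finset.sum_nonneg fun n _ => hnn n
  have hharm : Real.log N ≤ ∑ n ∈ Finset.Icc 1 N, 1 / (n : ℝ) := by
    have h2 := log_add_one_le_harmonic N
    have h3 : Real.log N ≤ Real.log ((N + 1 : ℕ) : ℝ) := by
      apply Real.log_le_log (by exact_mod_cast hN)
      push_cast; linarith
    have h4 : ((harmonic N : ℚ) : ℝ) = ∑ n ∈ Finset.Icc 1 N, 1 / (n : ℝ) := by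
      rw [harmonic_eq_sum_Icc]
      push_cast
      simp
    push_cast at h3 h2
    linarith
  have e1 : ∑ n ∈ Finset.Icc 1 N, (2 : ℝ) / n = 2 * ∑ n ∈ Finset.Icc 1 N, 1 / (n : ℝ) := by
    rw [Finset.mul_sum]
    refine Finset.sum_congr rfl fun n _ => by ring
  rw [e1]
  rcases le_or_gt N0 N with hle | hlt
  · have hx : x0 ≤ (N : ℝ) := (Nat.le_ceil x0).trans (by exact_mod_cast hle)
    obtain ⟨h2, h3⟩ := hx0 N hx
    have hlog : 0 < Real.log N := Real.log_pos (by linarith)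
    rw [div_lt_iff₀ hlog, Nat.floor_natCast] at h2
    linarith
  · have h5 : ∑ n ∈ Finset.Icc 1 N, ArithmeticFunction.vonMangoldt n * ‖c n‖ ^ 2 / n ≤
        ∑ n ∈ Finset.Icc 1 N0, ArithmeticFunction.vonMangoldt n * ‖c n‖ ^ 2 / n :=
      Finset.sum_le_sum_of_subset_of_nonneg (Finset.Icc_subset_Icc_right hlt.le)
        fun n _ _ => hnn n
    have h6 : 0 ≤ Real.log N := Real.log_natCast_nonneg N
    linarith

lemma s1_bound (c : ℕ → ℂ) (h : W388.SelE c) : ∃ C : ℝ, ∀ᶠ σ : ℝ in 𝓝[>] 0,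
    Summable (fun n : ℕ => ArithmeticFunction.vonMangoldt n * ‖c n‖ ^ 2 * (n : ℝ) ^ (-(1 + σ))) ∧
    ∑' n : ℕ, ArithmeticFunction.vonMangoldt n * ‖c n‖ ^ 2 * (n : ℝ) ^ (-(1 + σ)) ≤
      11 / 5 * (1 / σ) + C := by
  obtain ⟨C, hC0, hC⟩ := sel_partial c h
  refine ⟨C, ?_⟩
  have hz : Tendsto (fun σ : ℝ => σ * ∑' n : ℕ, 1 / (n : ℝ) ^ (1 + σ)) (𝓝[>] 0) (𝓝 1) := by
    have ht : Tendsto (fun σ : ℝ => 1 + σ) (𝓝[>] 0) (𝓝[>] 1) := by
      refine tendsto_nhdsWithin_iff.2 ⟨?_, ?_⟩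
      · have : Continuous fun σ : ℝ => 1 + σ := by fun_prop
        have h0 := this.tendsto 0
        rw [add_zero] at h0
        exact h0.mono_left nhdsWithin_le_nhds
      · filter_upwards [self_mem_nhdsWithin] with σ hσ
        simpa using hσ
    have := tendsto_sub_mul_tsum_nat_rpow.comp ht
    refine this.congr fun σ => ?_
    simp only [Function.comp_apply]
    ring_nf
  have h1 := hz.eventually_lt_const (by norm_num : (1 : ℝ) < 11 / 10)
  filter_upwards [h1, self_mem_nhdsWithin] with σ h2 hσ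
  have hσ' : (0 : ℝ) < σ := hσ
  have hnn : ∀ n : ℕ, 0 ≤ ArithmeticFunction.vonMangoldt n * ‖c n‖ ^ 2 * (n : ℝ) ^ (-(1 + σ)) :=
    fun n => mul_nonneg (mul_nonneg ArithmeticFunction.vonMangoldt_nonneg (by positivity))
      (Real.rpow_nonneg (Nat.cast_nonneg n) _)
  have hZs : Summable (fun n : ℕ => 1 / (n : ℝ) ^ (1 + σ)) :=
    Real.summable_one_div_nat_rpow.2 (by linarith)
  have hfin : ∀ N : ℕ, ∑ n ∈ Finset.range N, ArithmeticFunction.vonMangoldt n * ‖c n‖ ^ 2 *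
      (n : ℝ) ^ (-(1 + σ)) ≤ 11 / 5 * (1 / σ) + C := by
    intro N
    have e0 : 0 ≤ 11 / 5 * (1 / σ) + C := by positivity
    rcases Nat.lt_or_ge N 2 with hN | hN
    · interval_cases N
      · simpa using e0
      · simpa using e0
    · obtain ⟨M, rfl⟩ : ∃ M, N = M + 1 := ⟨N - 1, by omega⟩
      have hM : 1 ≤ M := by omega
      have e1 : ∑ n ∈ Finset.range (M + 1), ArithmeticFunction.vonMangoldt n * ‖c n‖ ^ 2 *
          (n : ℝ) ^ (-(1 + σ)) = ∑ n ∈ Finset.Icc 1 M, ArithmeticFunction.vonMangoldt n * ‖c n‖ ^ 2 *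
          (n : ℝ) ^ (-(1 + σ)) := by
        rw [Finset.sum_range_eq_add_Ico _ (by omega)]
        simp only [ArithmeticFunction.map_zero, zero_mul, zero_add]
        rfl
      rw [e1]
      have h3 := abel_fin (fun n => ArithmeticFunction.vonMangoldt n * ‖c n‖ ^ 2 / n - 2 / n)
        (fun n => (n : ℝ) ^ (-σ)) C hC (fun n hn => by
          apply Real.rpow_le_rpow_of_nonpos (by exact_mod_cast hn) (by push_cast; linarith)
          linarith) M hM
      simp only [Nat.cast_one, Real.one_rpow] at h3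
      have h4 : 0 ≤ (M : ℝ) ^ (-σ) := Real.rpow_nonneg (Nat.cast_nonneg M) _
      have h5 : C * (1 - (M : ℝ) ^ (-σ)) + (∑ n ∈ Finset.Icc 1 M,
          (ArithmeticFunction.vonMangoldt n * ‖c n‖ ^ 2 / n - 2 / n)) * (M : ℝ) ^ (-σ) ≤ C := by
        have := mul_le_mul_of_nonneg_right (hC M hM) h4
        linarith
      have h6 : ∑ n ∈ Finset.Icc 1 M, ArithmeticFunction.vonMangoldt n * ‖c n‖ ^ 2 *
          (n : ℝ) ^ (-(1 + σ)) = ∑ n ∈ Finset.Icc 1 M,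
            (ArithmeticFunction.vonMangoldt n * ‖c n‖ ^ 2 / n - 2 / n) * (n : ℝ) ^ (-σ) +
          2 * ∑ n ∈ Finset.Icc 1 M, 1 / (n : ℝ) ^ (1 + σ) := by
        rw [Finset.mul_sum, ← Finset.sum_add_distrib]
        refine Finset.sum_congr rfl fun n hn => ?_
        have hn1 : 1 ≤ n := (Finset.mem_Icc.1 hn).1
        have hn0 : (0 : ℝ) < n := by exact_mod_cast hn1
        have e2 : (n : ℝ) ^ (-(1 + σ)) = (n : ℝ)⁻¹ * (n : ℝ) ^ (-σ) := by
          rw [neg_add, Real.rpow_add hn0, Real.rpow_neg_one]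
        have e3 : 1 / (n : ℝ) ^ (1 + σ) = (n : ℝ)⁻¹ * (n : ℝ) ^ (-σ) := by
          rw [← e2, Real.rpow_neg hn0.le, one_div]
        rw [e2, e3]
        ring
      have h7 : ∑ n ∈ Finset.Icc 1 M, 1 / (n : ℝ) ^ (1 + σ) ≤ ∑' n : ℕ, 1 / (n : ℝ) ^ (1 + σ) :=
        hZs.sum_le_tsum _ fun n _ => by positivity
      have h8 : ∑' n : ℕ, 1 / (n : ℝ) ^ (1 + σ) ≤ 11 / 10 * (1 / σ) := by
        rw [mul_one_div, le_div_iff₀ hσ']
        linarith
      rw [h6]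
      linarith
  have hs : Summable (fun n : ℕ => ArithmeticFunction.vonMangoldt n * ‖c n‖ ^ 2 *
      (n : ℝ) ^ (-(1 + σ))) := summable_of_sum_range_le hnn hfin
  exact ⟨hs, hs.tsum_le_of_sum_range_le hfin⟩

end Pool.Agent.Y772.NZ
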