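import Pool.Agent.Y773.HK.Stm
import Pool.Agent.H484R2.Zeta

/-!
# The logarithmic derivative of the Dedekind zeta function near `s = 1`
-/

set_option autoImplicit false

open NumberField Complex Filter Topology Ideal

namespace Pool.Agent.Y772.NZ

open Pool.Agent.Y773

open Classical in
/-- the trivial character -/
noncomputable def one (K : Type) [Field K] [NumberField K] : Ideal (𝓞 K) →*₀ ℂ where
  toFun 𝔞 := if 𝔞 = 0 then 0 else 1
  map_zero' := if_pos rfl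
  map_one' := if_neg one_ne_zero
  map_mul' 𝔞 𝔟 := by
    by_cases h1 : 𝔞 = 0
    · rw [h1, zero_mul, if_pos rfl, zero_mul]
    · by_cases h2 : 𝔟 = 0
      · rw [h2, mul_zero, if_pos rfl, mul_zero]
      · rw [if_neg h1, if_neg h2, if_neg (mul_ne_zero h1 h2), one_mul]

variable (K : Type) [Field K] [NumberField K]

lemma one_ne {𝔞 : Ideal (𝓞 K)} (h : 𝔞 ≠ 0) : one K 𝔞 = 1 := if_neg h

lemma one_norm (𝔞 : Ideal (𝓞 K)) : ‖one K 𝔞‖ ≤ 1 := by
  by_cases h : 𝔞 = 0
  · rw [h, map_zero]; simp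
  · rw [one_ne K h]; simp

lemma LI_one {s : ℂ} (hs : 1 < s.re) : LI (one K) s = dedekindZeta K s := by
  have h1 := Pool.Agent.H484R2.hasSum_ideals K hs
  rw [← Pool.Agent.H484R2.zeta_eq K hs] at h1
  unfold LI
  refine HasSum.tsum_eq ?_
  have h2 : Function.support (fun 𝔞 : Ideal (𝓞 K) =>
      one K 𝔞 * ((absNorm 𝔞 : ℕ) : ℂ) ^ (-s)) ⊆ {𝔞 | 𝔞 ≠ ⊥} := by
    intro 𝔞 h
    rw [Function.mem_support] at h
    intro h0
    apply h
    rw [h0, ← Ideal.zero_eq_bot, map_zero, zero_mul]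
  rw [← hasSum_subtype_iff_of_support_subset h2]
  have h3 : ((fun 𝔞 : Ideal (𝓞 K) => one K 𝔞 * ((absNorm 𝔞 : ℕ) : ℂ) ^ (-s)) ∘
      ((↑) : {𝔞 : Ideal (𝓞 K) | 𝔞 ≠ ⊥} → Ideal (𝓞 K))) =
      fun I : Pool.Agent.H484R2.NZI K => (absNorm I.1 : ℂ) ^ (-s) := by
    funext I
    simp only [Function.comp_apply]
    rw [one_ne K I.2, one_mul]
  rw [h3]
  exact h1

/-- `cc 1 n` is real and nonnegative -/
lemma cc_one_nonneg (n : ℕ) : 0 ≤ (cc (one K) n).re ∧ (cc (one K) n).im = 0 := by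
  have key : 0 ≤ (∑ᶠ 𝔞 ∈ {𝔞 : Ideal (𝓞 K) | absNorm 𝔞 = n}, (VM 𝔞 : ℂ) * one K 𝔞).re ∧
      (∑ᶠ 𝔞 ∈ {𝔞 : Ideal (𝓞 K) | absNorm 𝔞 = n}, (VM 𝔞 : ℂ) * one K 𝔞).im = 0 := by
    refine finsum_mem_induction (fun z : ℂ => 0 ≤ z.re ∧ z.im = 0) ?_ ?_ ?_
    · simp
    · rintro x y ⟨h1, h2⟩ ⟨h3, h4⟩
      rw [add_re, add_im, h2, h4]
      exact ⟨add_nonneg h1 h3, by simp⟩
    · intro 𝔞 _
      have hV : 0 ≤ VM 𝔞 := by
        unfold VM
        split_ifs
        · exact Real.log_natCast_nonneg _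
        · exact le_rfl
      by_cases h : 𝔞 = 0
      · rw [h, map_zero, mul_zero]; simp
      · rw [one_ne K h, mul_one]
        exact ⟨by simpa using hV, by simp⟩
  unfold cc
  rw [div_re, div_im]
  have hΛ : 0 ≤ ArithmeticFunction.vonMangoldt n := ArithmeticFunction.vonMangoldt_nonneg
  simp only [ofReal_re, ofReal_im, key.2, mul_zero, zero_mul, zero_div, add_zero, sub_zero]
  refine ⟨?_, trivial⟩
  exact div_nonneg (mul_nonneg key.1 hΛ) (normSq_nonneg _)

/-- the Dedekind zeta function near `1` -/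
lemma near_one : ∃ g : ℂ → ℂ, AnalyticAt ℂ g 1 ∧ g 1 ≠ 0 ∧
    ∀ᶠ z in 𝓝 (1 : ℂ), 1 < z.re → LI (one K) z = g z / (z - 1) := by
  obtain ⟨g, hg, h⟩ := Pool.Agent.H484R2.continuation K 0
  rw [ofReal_zero, zero_mul, add_zero] at hg h
  have h2 : ∀ᶠ z in 𝓝 (1 : ℂ), 1 < z.re → LI (one K) z = g z / (z - 1) := by
    filter_upwards [h] with z hz h1
    have hz1 : z - 1 ≠ 0 := by
      intro h0
      have : z = 1 := by linear_combination h0
      rw [this] at h1
      simp at h1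
    rw [hz h1, LI_one K h1, mul_div_cancel_left₀ _ hz1]
  refine ⟨g, hg, ?_, h2⟩
  have ht : Tendsto (fun s : ℝ => (s : ℂ)) (𝓝[>] 1) (𝓝 (1 : ℂ)) := by
    have h0 := (continuous_ofReal.tendsto (1 : ℝ))
    rw [ofReal_one] at h0
    exact h0.mono_left nhdsWithin_le_nhds
  have h3 := hg.continuousAt.tendsto.comp ht
  have h4 := tendsto_sub_one_mul_dedekindZeta_nhdsGT K
  have h5 : Tendsto (fun s : ℝ => ((s : ℂ) - 1) * dedekindZeta K s) (𝓝[>] 1) (𝓝 (g 1)) := by
    refine h3.congr' ?_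
    filter_upwards [ht.eventually h, self_mem_nhdsWithin] with s hs h1
    simp only [Function.comp_apply]
    exact hs (by simpa using h1)
  have h6 := tendsto_nhds_unique h4 h5
  rw [← h6]
  exact_mod_cast dedekindZeta_residue_ne_zero K

/-- upper bound for the logarithmic derivative -/
lemma d_bound (hD : StDirK) : ∃ C : ℝ, ∀ᶠ σ : ℝ in 𝓝[>] 0,
    Summable (fun n : ℕ => (cc (one K) n).re * ArithmeticFunction.vonMangoldt n *
      (n : ℝ) ^ (-(1 + σ))) ∧
    ∑' n : ℕ, (cc (one K) n).re * ArithmeticFunction.vonMangoldt n * (n : ℝ) ^ (-(1 + σ)) ≤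
      1 / σ + C := by
  obtain ⟨A, hA, hD⟩ := hD K
  obtain ⟨-, hdiff, -, hlog, -, -, hcc, -, -, -, -⟩ := hD (one K) (one_norm K)
  obtain ⟨g, hg, hg1, hgz⟩ := near_one K
  -- bound of g'/g
  have hgc : ContinuousAt (fun z => deriv g z / g z) 1 :=
    hg.deriv.continuousAt.div hg.continuousAt hg1
  have hgb : ∀ᶠ z in 𝓝 (1 : ℂ), ‖deriv g z / g z‖ < ‖deriv g 1 / g 1‖ + 1 :=
    hgc.norm.eventually_lt_const (lt_add_one _)
  have hg0 : ∀ᶠ z in 𝓝 (1 : ℂ), g z ≠ 0 := hg.continuousAt.eventually_ne hg1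
  have hga : ∀ᶠ z in 𝓝 (1 : ℂ), AnalyticAt ℂ g z := hg.eventually_analyticAt
  have hgz' := hgz.eventually_nhds
  have ht : Tendsto (fun σ : ℝ => ((1 + σ : ℝ) : ℂ)) (𝓝[>] 0) (𝓝 (1 : ℂ)) := by
    have : Continuous (fun σ : ℝ => ((1 + σ : ℝ) : ℂ)) := by fun_prop
    have h0 := this.tendsto 0
    simp only [add_zero, Complex.ofReal_one] at h0
    exact h0.mono_left nhdsWithin_le_nhds
  refine ⟨‖deriv g 1 / g 1‖ + 1, ?_⟩
  filter_upwards [ht.eventually hgb, ht.eventually hg0, ht.eventually hga, ht.eventually hgz',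
    self_mem_nhdsWithin] with σ h1 h2 h3 h4 hσ
  have hσ' : (0 : ℝ) < σ := hσ
  set z : ℂ := ((1 + σ : ℝ) : ℂ) with hz
  have hzre : 1 < z.re := by rw [hz, ofReal_re]; linarith
  have hz1 : z - 1 = (σ : ℂ) := by rw [hz]; push_cast; ring
  have hσ0 : (σ : ℂ) ≠ 0 := by exact_mod_cast hσ'.ne'
  have hz10 : z - 1 ≠ 0 := by rw [hz1]; exact hσ0
  have hopen : ∀ᶠ w in 𝓝 z, 1 < w.re := (isOpen_lt continuous_const continuous_re).mem_nhds hzre
  have heq : LI (one K) =ᶠ[𝓝 z] fun w => g w / (w - 1) := by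
    filter_upwards [h4, hopen] with w hw hw1
    exact hw hw1
  have hder : deriv (LI (one K)) z = (deriv g z * (z - 1) - g z * 1) / (z - 1) ^ 2 := by
    rw [heq.deriv_eq]
    have e1 : HasDerivAt (fun w : ℂ => w - 1) 1 z := (hasDerivAt_id z).sub_const 1
    exact (h3.differentiableAt.hasDerivAt.div e1 hz10).deriv
  have hquot : deriv (LI (one K)) z / LI (one K) z = deriv g z / g z - 1 / (σ : ℂ) := by
    rw [hder, heq.eq_of_nhds, ← hz1]
    field_simp
  -- summability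
  have hΛs : Summable (fun n : ℕ => ArithmeticFunction.vonMangoldt n * (n : ℝ) ^ (-(1 + σ))) := by
    have h1 := (ArithmeticFunction.LSeriesSummable_vonMangoldt
      (s := ((1 + σ : ℝ) : ℂ)) (by simpa using hσ')).norm
    refine h1.congr fun n => ?_
    rw [LSeries.norm_term_eq]
    rcases eq_or_ne n 0 with rfl | hn
    · simp
    · rw [if_neg hn, Complex.norm_real, Real.norm_of_nonneg ArithmeticFunction.vonMangoldt_nonneg,
        Complex.ofReal_re, Real.rpow_neg (Nat.cast_nonneg n), div_eq_mul_inv]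
  have hterm : ∀ n : ℕ, cc (one K) n * (ArithmeticFunction.vonMangoldt n : ℂ) * (n : ℂ) ^ (-z) =
      (((cc (one K) n).re * ArithmeticFunction.vonMangoldt n * (n : ℝ) ^ (-(1 + σ)) : ℝ) : ℂ) := by
    intro n
    have e1 : cc (one K) n = (((cc (one K) n).re : ℝ) : ℂ) := by
      apply Complex.ext
      · simp
      · simp [(cc_one_nonneg K n).2]
    have e2 : (n : ℂ) ^ (-z) = (((n : ℝ) ^ (-(1 + σ)) : ℝ) : ℂ) := by
      rw [Complex.ofReal_cpow (Nat.cast_nonneg n), hz]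
      push_cast
      rfl
    rw [e2]
    nth_rewrite 1 [e1]
    push_cast
    ring
  have hsum : Summable (fun n : ℕ => (cc (one K) n).re * ArithmeticFunction.vonMangoldt n *
      (n : ℝ) ^ (-(1 + σ))) := by
    refine Summable.of_nonneg_of_le (fun n => ?_) (fun n => ?_)
      (hΛs.mul_left (Module.finrank ℚ K : ℝ))
    · exact mul_nonneg (mul_nonneg (cc_one_nonneg K n).1 ArithmeticFunction.vonMangoldt_nonneg)
        (Real.rpow_nonneg (Nat.cast_nonneg n) _)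
    · rw [mul_assoc]
      refine mul_le_mul_of_nonneg_right ?_ (mul_nonneg ArithmeticFunction.vonMangoldt_nonneg
        (Real.rpow_nonneg (Nat.cast_nonneg n) _))
      exact (le_trans (le_abs_self _) (abs_re_le_norm _)).trans (hcc n)
  refine ⟨hsum, ?_⟩
  have h5 := hlog z hzre
  rw [hquot, tsum_congr hterm, ← ofReal_tsum] at h5
  have h6 := congrArg Complex.re h5
  rw [sub_re, neg_re, ofReal_re] at h6
  have h7 : (1 / (σ : ℂ)).re = 1 / σ := by
    rw [← ofReal_one, ← ofReal_div, ofReal_re]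
  rw [h7] at h6
  have h8 := (abs_le.1 ((abs_re_le_norm (deriv g z / g z)).trans h1.le)).1
  linarith

end Pool.Agent.Y772.NZ
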