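import Pool.Agent.Y772.NZ.Split
import Pool.Agent.Y772.NZ.Abel
import Pool.Agent.Y772.NZ.Zeta

/-!
# No zeros on the line `Re s = 1` (job StNzrK of helper773)
-/

set_option autoImplicit false

open NumberField Complex Filter Topology Ideal

namespace Pool.Agent.Y772.NZ

open Pool.Agent.Y773

/-- the rational primes with a prime ideal of norm `p` -/
def TT (K : Type) [Field K] [NumberField K] : Set ℕ :=
  {p : ℕ | p.Prime ∧ ∃ P : Ideal (𝓞 K), absNorm P = p}

lemma cc_zero_of_not {K : Type} [Field K] [NumberField K] {ψ : Ideal (𝓞 K) →*₀ ℂ} {p : ℕ}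
    (hp : p.Prime) (hcc : cc ψ p = ∑ᶠ 𝔭 ∈ {𝔭 : Ideal (𝓞 K) | absNorm 𝔭 = p}, ψ 𝔭)
    (h : p ∉ TT K) : cc ψ p = 0 := by
  rw [hcc]
  have : {𝔭 : Ideal (𝓞 K) | absNorm 𝔭 = p} = ∅ := by
    ext P
    simp only [Set.mem_ofPred_eq, Set.mem_empty_iff_false, iff_false]
    intro hP
    exact h ⟨hp, P, hP⟩
  rw [this, finsum_mem_empty]

lemma cc_one_split {K : Type} [Field K] [NumberField K] (hG : IsGalois ℚ K)
    (h3 : Module.finrank ℚ K = 3) {p : ℕ} (hp : p ∈ TT K)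
    (hb : ¬ ∃ P : Ideal (𝓞 K), absNorm P = p ∧ P ∣ differentIdeal ℤ (𝓞 K))
    (hcc : cc (one K) p = ∑ᶠ 𝔭 ∈ {𝔭 : Ideal (𝓞 K) | absNorm 𝔭 = p}, one K 𝔭) :
    (cc (one K) p).re = 3 := by
  obtain ⟨hpp, P, hP⟩ := hp
  have h1 : ¬ P ∣ differentIdeal ℤ (𝓞 K) := fun h => hb ⟨P, hP, h⟩
  have h2 := ncard_norm hG h3 hpp hP h1
  rw [hcc]
  have e1 : ∑ᶠ 𝔭 ∈ {𝔭 : Ideal (𝓞 K) | absNorm 𝔭 = p}, one K 𝔭 =
      ∑ᶠ 𝔭 ∈ {𝔭 : Ideal (𝓞 K) | absNorm 𝔭 = p}, (1 : ℂ) := by
    refine finsum_mem_congr rfl fun 𝔭 h𝔭 => one_ne K ?_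
    rintro rfl
    have h𝔭' : absNorm (0 : Ideal (𝓞 K)) = p := h𝔭
    rw [Ideal.zero_eq_bot, absNorm_bot] at h𝔭'
    exact hpp.ne_zero h𝔭'.symm
  rw [e1]
  have hfin : {𝔭 : Ideal (𝓞 K) | absNorm 𝔭 = p}.Finite := Ideal.finite_setOfPred_absNorm_eq p
  rw [finsum_mem_eq_finite_toFinset_sum _ hfin, Finset.sum_const, nsmul_eq_mul, mul_one]
  rw [Set.ncard_eq_toFinset_card _ hfin] at h2
  rw [h2]
  norm_num

open scoped ArithmeticFunction.vonMangoldt in
theorem t_nzrK (hD : StDirK) : StNzrK := by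
  intro K _ _ hG h3 ψ hψ hS q _ χ F s₀ hs0 hF hFL hF0
  classical
  obtain ⟨A, hA, hDK⟩ := hD K
  obtain ⟨-, -, -, -, -, -, hccb, hccp, -, -, htw⟩ := hDK ψ hψ
  have hψtw : ∀ 𝔞, ‖tw ψ χ 𝔞‖ ≤ 1 := by
    intro 𝔞
    have h1 : tw ψ χ 𝔞 = ψ 𝔞 * χ ((absNorm 𝔞 : ℕ) : ZMod q) := rfl
    rw [h1, norm_mul]
    have h2 := hψ 𝔞
    have h3 := χ.norm_le_one ((absNorm 𝔞 : ℕ) : ZMod q)
    nlinarith [norm_nonneg (ψ 𝔞), norm_nonneg (χ ((absNorm 𝔞 : ℕ) : ZMod q))]
  obtain ⟨-, hdiff, hne, hlog, -, -, -, -, -, -, -⟩ := hDK (tw ψ χ) hψtw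
  obtain ⟨-, -, -, -, -, -, -, hcc1, -, -, -⟩ := hDK (one K) (one_norm K)
  obtain ⟨C1, hS1⟩ := s1_bound (cc ψ) hS
  obtain ⟨C2, hS2⟩ := d_bound K hD
  -- path
  have ht : Tendsto (fun σ : ℝ => s₀ + (σ : ℂ)) (𝓝[>] 0) (𝓝 s₀) := by
    have : Continuous (fun σ : ℝ => s₀ + (σ : ℂ)) := by fun_prop
    have h0 := this.tendsto 0
    simp only [Complex.ofReal_zero, add_zero] at h0
    exact h0.mono_left nhdsWithin_le_nhds
  -- finite order
  have hord : analyticOrderAt F s₀ ≠ ⊤ := by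
    intro htop
    rw [analyticOrderAt_eq_top] at htop
    have h1 := ht.eventually htop
    obtain ⟨σ, h2, h4⟩ := (h1.and self_mem_nhdsWithin).exists
    have hσ : (0 : ℝ) < σ := h4
    have hre : 1 < (s₀ + (σ : ℂ)).re := by rw [add_re, hs0, ofReal_re]; linarith
    rw [hFL _ hre] at h2
    exact hne _ hre h2
  obtain ⟨m, hm⟩ := ENat.ne_top_iff_exists.1 hord
  obtain ⟨g, hg, hg0, hgz⟩ := (hF.analyticOrderAt_eq_natCast).1 hm.symm
  have hm1 : 1 ≤ m := by
    by_contra h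
    have : m = 0 := by omega
    subst this
    have h1 := hgz.self_of_nhds
    rw [hF0] at h1
    simp at h1
    exact hg0 h1.symm
  -- lower bound for the logarithmic derivative
  have hgc : ContinuousAt (fun z => deriv g z / g z) s₀ :=
    hg.deriv.continuousAt.div hg.continuousAt hg0
  have hgb : ∀ᶠ z in 𝓝 s₀, ‖deriv g z / g z‖ < ‖deriv g s₀ / g s₀‖ + 1 :=
    hgc.norm.eventually_lt_const (lt_add_one _)
  have hgne : ∀ᶠ z in 𝓝 s₀, g z ≠ 0 := hg.continuousAt.eventually_ne hg0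
  have hga : ∀ᶠ z in 𝓝 s₀, AnalyticAt ℂ g z := hg.eventually_analyticAt
  have hlow : ∀ᶠ σ : ℝ in 𝓝[>] 0, 1 / σ - (‖deriv g s₀ / g s₀‖ + 1) ≤
      ‖deriv (LI (tw ψ χ)) (s₀ + (σ : ℂ)) / LI (tw ψ χ) (s₀ + (σ : ℂ))‖ := by
    filter_upwards [ht.eventually hgb, ht.eventually hgne, ht.eventually hga,
      ht.eventually hgz.eventually_nhds, self_mem_nhdsWithin] with σ h1 h2 h3' h4 hσ
    have hσ' : (0 : ℝ) < σ := hσ
    set z : ℂ := s₀ + (σ : ℂ) with hz
    have hzre : 1 < z.re := by rw [hz, add_re, hs0, ofReal_re]; linarith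
    have hz1 : z - s₀ = (σ : ℂ) := by rw [hz]; ring
    have hσ0 : (σ : ℂ) ≠ 0 := by exact_mod_cast hσ'.ne'
    have hopen : ∀ᶠ w in 𝓝 z, 1 < w.re :=
      (isOpen_lt continuous_const continuous_re).mem_nhds hzre
    have heq : LI (tw ψ χ) =ᶠ[𝓝 z] fun w => (w - s₀) ^ m * g w := by
      filter_upwards [h4, hopen] with w hw hw1
      rw [← hFL w hw1, hw, smul_eq_mul]
    have hder : deriv (LI (tw ψ χ)) z =
        (m : ℂ) * (z - s₀) ^ (m - 1) * g z + (z - s₀) ^ m * deriv g z := by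
      rw [heq.deriv_eq]
      have e1 : HasDerivAt (fun w : ℂ => (w - s₀) ^ m) ((m : ℂ) * (z - s₀) ^ (m - 1)) z := by
        have h9 : HasDerivAt (fun w : ℂ => (w - s₀) ^ m) ((m : ℂ) * (z - s₀) ^ (m - 1) * 1) z :=
          ((hasDerivAt_id z).sub_const s₀).pow m
        rwa [mul_one] at h9
      exact (e1.mul h3'.differentiableAt.hasDerivAt).deriv
    have hquot : deriv (LI (tw ψ χ)) z / LI (tw ψ χ) z = (m : ℂ) / (σ : ℂ) + deriv g z / g z := by
      rw [hder, heq.eq_of_nhds, hz1]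
      obtain ⟨k, rfl⟩ : ∃ k, m = k + 1 := ⟨m - 1, by omega⟩
      simp only [Nat.add_sub_cancel, pow_succ]
      have hp : (σ : ℂ) ^ k ≠ 0 := pow_ne_zero _ hσ0
      field_simp
    rw [hquot]
    have h5 : ‖(m : ℂ) / (σ : ℂ)‖ = m / σ := by
      rw [norm_div, Complex.norm_natCast, Complex.norm_real, Real.norm_of_nonneg hσ'.le]
    have h6 : ‖(m : ℂ) / (σ : ℂ)‖ - ‖deriv g z / g z‖ ≤ ‖(m : ℂ) / (σ : ℂ) + deriv g z / g z‖ := by
      have := norm_sub_norm_le ((m : ℂ) / (σ : ℂ)) (-(deriv g z / g z))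
      rw [norm_neg, sub_neg_eq_add] at this
      exact this
    have h7 : (1 : ℝ) / σ ≤ m / σ := by
      have : (1 : ℝ) ≤ m := by exact_mod_cast hm1
      gcongr
    rw [h5] at h6
    linarith
  -- constants
  have hnp : Summable (fun n : ℕ => (if n.Prime then 0 else Λ n) / (n : ℝ)) := by
    have h := ArithmeticFunction.vonMangoldt.summable_residueClass_non_primes_div (q := 1) (a := 0)
    refine h.congr fun n => ?_
    congr 1
    split_ifs with hn
    · rfl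
    · unfold ArithmeticFunction.vonMangoldt.residueClass
      rw [Set.indicator_of_mem]
      exact Subsingleton.elim _ _
  set B0 : ℝ := ∑' n : ℕ, (if n.Prime then 0 else Λ n) / (n : ℝ) with hB0
  have hfb := finite_bad K
  set B1 : ℝ := ∑ n ∈ hfb.toFinset, Λ n with hB1
  -- the upper bound
  have hup : ∀ᶠ σ : ℝ in 𝓝[>] 0,
      ‖deriv (LI (tw ψ χ)) (s₀ + (σ : ℂ)) / LI (tw ψ χ) (s₀ + (σ : ℂ))‖ ≤
        (1 / 5) * (11 / 5 * (1 / σ) + C1) + (5 / 12) * (1 / σ + C2) + (5 / 4) * B1 + 3 * B0 := by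
    filter_upwards [hS1, hS2, self_mem_nhdsWithin] with σ h1 h2 hσ
    have hσ' : (0 : ℝ) < σ := hσ
    obtain ⟨h1s, h1b⟩ := h1
    obtain ⟨h2s, h2b⟩ := h2
    set z : ℂ := s₀ + (σ : ℂ) with hz
    have hzre' : z.re = 1 + σ := by rw [hz, add_re, hs0, ofReal_re]
    have hzre : 1 < z.re := by rw [hzre']; linarith
    rw [hlog z hzre, norm_neg]
    have hΛ : ∀ n : ℕ, 0 ≤ Λ n := fun n => ArithmeticFunction.vonMangoldt_nonneg
    have hr : ∀ n : ℕ, 0 ≤ (n : ℝ) ^ (-(1 + σ)) := fun n => Real.rpow_nonneg (Nat.cast_nonneg n) _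
    have hr1 : ∀ n : ℕ, (n : ℝ) ^ (-(1 + σ)) ≤ 1 / (n : ℝ) := by
      intro n
      rcases Nat.eq_zero_or_pos n with rfl | hn
      · rw [Nat.cast_zero, Real.zero_rpow (by linarith)]; simp
      · rw [one_div, ← Real.rpow_neg_one]
        exact Real.rpow_le_rpow_of_exponent_le (by exact_mod_cast hn) (by linarith)
    have hr2 : ∀ n : ℕ, (n : ℝ) ^ (-(1 + σ)) ≤ 1 := by
      intro n
      rcases Nat.eq_zero_or_pos n with rfl | hn
      · rw [Nat.cast_zero, Real.zero_rpow (by linarith)]; simp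
      · exact Real.rpow_le_one_of_one_le_of_nonpos (by exact_mod_cast hn) (by linarith)
    -- the majorant
    set G : ℕ → ℝ := fun n => (1 / 5) * (Λ n * ‖cc ψ n‖ ^ 2 * (n : ℝ) ^ (-(1 + σ))) +
      (5 / 12) * ((cc (one K) n).re * Λ n * (n : ℝ) ^ (-(1 + σ))) +
      (5 / 4) * (if n ∈ hfb.toFinset then Λ n else 0) +
      3 * ((if n.Prime then 0 else Λ n) / (n : ℝ)) with hG'
    have hfs : Summable (fun n : ℕ => if n ∈ hfb.toFinset then Λ n else 0) :=
      summable_of_ne_finset_zero (s := hfb.toFinset) fun n hn => if_neg hn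
    have hfv : ∑' n : ℕ, (if n ∈ hfb.toFinset then Λ n else 0) = B1 := by
      rw [tsum_eq_sum (s := hfb.toFinset) fun n hn => if_neg hn, hB1]
      exact Finset.sum_congr rfl fun n hn => if_pos hn
    have hGs : Summable G := by
      rw [hG']
      exact (((h1s.mul_left _).add (h2s.mul_left _)).add (hfs.mul_left _)).add (hnp.mul_left _)
    have hGv : ∑' n, G n ≤ (1 / 5) * (11 / 5 * (1 / σ) + C1) + (5 / 12) * (1 / σ + C2) +
        (5 / 4) * B1 + 3 * B0 := by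
      rw [hG', (((h1s.mul_left _).add (h2s.mul_left _)).add (hfs.mul_left _)).tsum_add
        (hnp.mul_left _), ((h1s.mul_left _).add (h2s.mul_left _)).tsum_add (hfs.mul_left _),
        (h1s.mul_left _).tsum_add (h2s.mul_left _), tsum_mul_left, tsum_mul_left, tsum_mul_left,
        tsum_mul_left, hfv]
      linarith
    have hterm : ∀ n : ℕ, ‖cc (tw ψ χ) n * (Λ n : ℂ) * (n : ℂ) ^ (-z)‖ ≤ G n := by
      intro n
      have hnorm : ‖cc (tw ψ χ) n * (Λ n : ℂ) * (n : ℂ) ^ (-z)‖ ≤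
          ‖cc ψ n‖ * Λ n * (n : ℝ) ^ (-(1 + σ)) := by
        rw [htw, norm_mul, norm_mul, norm_mul, Complex.norm_real, Real.norm_of_nonneg (hΛ n)]
        have h5 : ‖χ (n : ZMod q)‖ ≤ 1 := χ.norm_le_one _
        have h6 : ‖(n : ℂ) ^ (-z)‖ ≤ (n : ℝ) ^ (-(1 + σ)) := by
          rcases Nat.eq_zero_or_pos n with rfl | hn
          · have hz0 : -z ≠ 0 := by
              intro h0
              have := congrArg Complex.re h0
              rw [neg_re, hzre', zero_re] at this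
              linarith
            rw [Nat.cast_zero, Complex.zero_cpow hz0, norm_zero]
            exact hr 0
          · rw [Complex.norm_natCast_cpow_of_pos hn, neg_re, hzre']
        have h7 : ‖χ (n : ZMod q)‖ * ‖cc ψ n‖ * Λ n ≤ ‖cc ψ n‖ * Λ n := by
          have := mul_nonneg (norm_nonneg (cc ψ n)) (hΛ n)
          nlinarith
        exact mul_le_mul h7 h6 (norm_nonneg _) (mul_nonneg (norm_nonneg _) (hΛ n))
      refine hnorm.trans ?_
      have hN := hΛ n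
      have hR := hr n
      have g1 : 0 ≤ Λ n * ‖cc ψ n‖ ^ 2 * (n : ℝ) ^ (-(1 + σ)) := by positivity
      have g2 : 0 ≤ (cc (one K) n).re * Λ n * (n : ℝ) ^ (-(1 + σ)) :=
        mul_nonneg (mul_nonneg (cc_one_nonneg K n).1 hN) hR
      have g3 : 0 ≤ (if n ∈ hfb.toFinset then Λ n else 0) := by split_ifs <;> [exact hN; exact le_rfl]
      have g4 : 0 ≤ (if n.Prime then 0 else Λ n) / (n : ℝ) := by
        split_ifs
        · simp
        · positivity
      simp only [hG']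
      by_cases hp : n.Prime
      · by_cases hT : n ∈ TT K
        · -- x y ≤ x² / 5 + (5/4) y²
          have hy : Λ n * (n : ℝ) ^ (-(1 + σ)) ≤
              (1 / 3) * ((cc (one K) n).re * Λ n * (n : ℝ) ^ (-(1 + σ))) +
              (if n ∈ hfb.toFinset then Λ n else 0) := by
            by_cases hb : n ∈ hfb.toFinset
            · rw [if_pos hb]
              have : Λ n * (n : ℝ) ^ (-(1 + σ)) ≤ Λ n * 1 := mul_le_mul_of_nonneg_left (hr2 n) hN
              linarith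
            · rw [if_neg hb]
              rw [Set.Finite.mem_toFinset] at hb
              rw [cc_one_split hG h3 hT hb (hcc1 n hp)]
              linarith
          have hx : ‖cc ψ n‖ * Λ n * (n : ℝ) ^ (-(1 + σ)) ≤
              (1 / 5) * (Λ n * ‖cc ψ n‖ ^ 2 * (n : ℝ) ^ (-(1 + σ))) +
              (5 / 4) * (Λ n * (n : ℝ) ^ (-(1 + σ))) := by
            have hP : 0 ≤ Λ n * (n : ℝ) ^ (-(1 + σ)) := mul_nonneg hN hR
            have hq2 : ‖cc ψ n‖ ≤ (1 / 5) * ‖cc ψ n‖ ^ 2 + 5 / 4 := by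
              nlinarith [sq_nonneg (2 * ‖cc ψ n‖ - 5)]
            have := mul_le_mul_of_nonneg_right hq2 hP
            nlinarith
          rw [if_pos hp] at g4 ⊢
          linarith
        · rw [cc_zero_of_not hp (hccp n hp) hT, norm_zero, zero_mul, zero_mul]
          rw [cc_zero_of_not hp (hccp n hp) hT, norm_zero] at g1
          linarith
      · rw [if_neg hp] at g4 ⊢
        have h8 : ‖cc ψ n‖ * Λ n * (n : ℝ) ^ (-(1 + σ)) ≤ 3 * (Λ n / (n : ℝ)) := by
          have h9 : ‖cc ψ n‖ ≤ 3 := by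
            have := hccb n
            rw [h3] at this
            simpa using this
          have h10 : ‖cc ψ n‖ * Λ n ≤ 3 * Λ n := mul_le_mul_of_nonneg_right h9 hN
          have h11 := mul_le_mul h10 (hr1 n) hR (by positivity)
          calc _ ≤ 3 * Λ n * (1 / (n : ℝ)) := h11
            _ = _ := by ring
        linarith
    have hs : Summable (fun n : ℕ => ‖cc (tw ψ χ) n * (Λ n : ℂ) * (n : ℂ) ^ (-z)‖) :=
      Summable.of_nonneg_of_le (fun n => norm_nonneg _) hterm hGs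
    exact ((norm_tsum_le_tsum_norm hs).trans (hs.tsum_le_tsum hterm hGs)).trans hGv
  -- contradiction
  have hinv : Tendsto (fun σ : ℝ => 1 / σ) (𝓝[>] 0) atTop := by
    simpa using tendsto_inv_nhdsGT_zero (𝕜 := ℝ)
  have hbig := hinv.eventually (eventually_gt_atTop
    (10 * ((1 / 5) * C1 + (5 / 12) * C2 + (5 / 4) * B1 + 3 * B0 + (‖deriv g s₀ / g s₀‖ + 1))))
  have hbig2 := hinv.eventually (eventually_gt_atTop 0)
  obtain ⟨σ, h5, h6, h7, h8⟩ := (hlow.and (hup.and (hbig.and hbig2))).exists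
  linarith

end Pool.Agent.Y772.NZ
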