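import Mathlib

/-!
# Rational primes with a prime ideal of degree one in a cyclic cubic field
-/

set_option autoImplicit false

open NumberField Ideal

namespace Pool.Agent.Y772.NZ

variable {K : Type} [Field K] [NumberField K]

lemma prime_of_norm {p : ℕ} (hp : p.Prime) {P : Ideal (𝓞 K)} (h : absNorm P = p) : P.IsPrime :=
  isPrime_of_irreducible_absNorm (by rw [h]; exact hp)

lemma liesOver_of_norm {p : ℕ} (hp : p.Prime) {P : Ideal (𝓞 K)} (h : absNorm P = p) :
    P.LiesOver (span {(p : ℤ)}) := by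
  have : Fact p.Prime := ⟨hp⟩
  have hP := prime_of_norm hp h
  constructor
  have hmax : (span {(p : ℤ)}).IsMaximal := Int.ideal_span_isMaximal_of_prime p
  refine hmax.eq_of_le ?_ ?_
  · exact (inferInstance : (P.under ℤ).IsPrime).ne_top
  · rw [span_singleton_le_iff_mem, mem_comap]
    have h1 := absNorm_mem P
    rw [h] at h1
    simpa using h1

/-- the primes dividing the different -/
lemma finite_bad (K : Type) [Field K] [NumberField K] :
    {p : ℕ | ∃ P : Ideal (𝓞 K), absNorm P = p ∧ P ∣ differentIdeal ℤ (𝓞 K)}.Finite := by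
  have h0 : differentIdeal ℤ (𝓞 K) ≠ 0 := differentIdeal_ne_bot
  have h1 : {P : Ideal (𝓞 K) | P ∣ differentIdeal ℤ (𝓞 K)}.Finite := by
    have h2 := UniqueFactorizationMonoid.fintypeSubtypeDvd (differentIdeal ℤ (𝓞 K)) h0
    have h3 : Finite {P : Ideal (𝓞 K) // P ∣ differentIdeal ℤ (𝓞 K)} := Finite.of_fintype _
    exact Set.finite_coe_iff.mp h3
  refine (h1.image absNorm).subset ?_
  rintro p ⟨P, hP, hd⟩
  exact ⟨P, hd, hP⟩

lemma ncard_norm (hG : IsGalois ℚ K) (h3 : Module.finrank ℚ K = 3) {p : ℕ} (hp : p.Prime)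
    {P : Ideal (𝓞 K)} (h : absNorm P = p) (hd : ¬ P ∣ differentIdeal ℤ (𝓞 K)) :
    {Q : Ideal (𝓞 K) | absNorm Q = p}.ncard = 3 := by
  have : Fact p.Prime := ⟨hp⟩
  have hP := prime_of_norm hp h
  have hPl := liesOver_of_norm hp h
  have hmax : (span {(p : ℤ)}).IsMaximal := Int.ideal_span_isMaximal_of_prime p
  have e1 := ncard_primesOver_mul_ramificationIdxIn_mul_inertiaDegIn
    (span {(p : ℤ)}) (𝓞 K) Gal(K/ℚ)
  rw [IsGalois.card_aut_eq_finrank, h3, ramificationIdxIn_eq_ramificationIdx (span {(p : ℤ)}) P Gal(K/ℚ),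
    inertiaDegIn_eq_inertiaDeg (span {(p : ℤ)}) P Gal(K/ℚ)] at e1
  have hP0 : P ≠ ⊥ := by
    rintro rfl
    rw [absNorm_bot] at h
    exact hp.ne_zero h.symm
  have hPm : P.IsMaximal := hP.isMaximal hP0
  have e2 : Algebra.IsUnramifiedAt ℤ P := not_dvd_differentIdeal_iff.1 hd
  have e3 : P.ramificationIdx ℤ = 1 := ramificationIdx_eq_one P ℤ
  have hin : ∀ Q : Ideal (𝓞 K), Q.IsPrime → Q.LiesOver (span {(p : ℤ)}) →
      absNorm Q = p ^ Q.inertiaDeg ℤ := fun Q _ _ => (pow_inertiaDeg p Q).symm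
  have e4 : P.inertiaDeg ℤ = 1 := by
    have := hin P hP hPl
    rw [h] at this
    have h5 : p ^ 1 = p ^ P.inertiaDeg ℤ := by rw [pow_one]; exact this
    exact (Nat.pow_right_injective hp.two_le h5).symm
  rw [e3, e4, one_mul, mul_one] at e1
  have e5 : {Q : Ideal (𝓞 K) | absNorm Q = p} = (span {(p : ℤ)}).primesOver (𝓞 K) := by
    ext Q
    constructor
    · intro hQ
      exact ⟨prime_of_norm hp hQ, liesOver_of_norm hp hQ⟩
    · rintro ⟨hQ1, hQ2⟩
      have h6 := hin Q hQ1 hQ2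
      have h7 : Q.inertiaDeg ℤ = P.inertiaDeg ℤ := by
        rw [← inertiaDegIn_eq_inertiaDeg (span {(p : ℤ)}) P Gal(K/ℚ),
          ← inertiaDegIn_eq_inertiaDeg (span {(p : ℤ)}) Q Gal(K/ℚ)]
      rw [h7, e4, pow_one] at h6
      exact h6
  rw [e5, e1]

end Pool.Agent.Y772.NZ
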